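import Pool.Agent.MT100.Stmts

/-! HG0: the coefficients of the holomorphic solution. -/

set_option autoImplicit false

namespace Pool.Agent.MT100.H90

open Finset

/-- the product for one exponent -/
def w (α : ℚ) (k : ℕ) : ℚ :=
  ∏ j ∈ range k, (((j : ℚ) + α) * ((j : ℚ) + (1 - α)) * (((j : ℚ) + 1)⁻¹) ^ 2)

theorem w_zero (α : ℚ) : w α 0 = 1 := by simp [w]

theorem w_succ (α : ℚ) (k : ℕ) :
    w α (k + 1) = w α k * (((k : ℚ) + α) * ((k : ℚ) + (1 - α)) * (((k : ℚ) + 1)⁻¹) ^ 2) := by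
  simp [w, prod_range_succ]

theorem w_pos (α : ℚ) (h0 : 0 < α) (h1 : α < 1) (k : ℕ) : 0 < w α k := by
  unfold w
  apply prod_pos
  intro j _
  have hj : (0 : ℚ) ≤ j := Nat.cast_nonneg j
  have h2 : 0 < (j : ℚ) + α := by linarith
  have h3 : 0 < (j : ℚ) + (1 - α) := by linarith
  have h4 : 0 < (j : ℚ) + 1 := by linarith
  positivity

theorem w_le (α : ℚ) (h0 : 0 < α) (h1 : α < 1) (k : ℕ) : w α k * (2 * (k : ℚ) + 1) ≤ 1 := by
  induction k with
  | zero => simp [w_zero]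
  | succ k ih =>
    have hk : (0 : ℚ) ≤ k := Nat.cast_nonneg k
    have hw := w_pos α h0 h1 k
    have hp : (0 : ℚ) < (k : ℚ) + 1 := by linarith
    rw [w_succ]
    push_cast
    have key : (((k : ℚ) + α) * ((k : ℚ) + (1 - α)) * (((k : ℚ) + 1)⁻¹) ^ 2) *
        (2 * ((k : ℚ) + 1) + 1) ≤ 2 * (k : ℚ) + 1 := by
      rw [inv_pow, ← div_eq_mul_inv, div_mul_eq_mul_div, div_le_iff₀ (by positivity)]
      have e1 : ((k : ℚ) + α) * ((k : ℚ) + (1 - α)) ≤ ((k : ℚ) + 1 / 2) ^ 2 := by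
        nlinarith [sq_nonneg (α - 1 / 2)]
      have e2 : ((k : ℚ) + 1 / 2) ^ 2 * (2 * ((k : ℚ) + 1) + 1) ≤
          (2 * (k : ℚ) + 1) * ((k : ℚ) + 1) ^ 2 := by nlinarith
      calc _ ≤ ((k : ℚ) + 1 / 2) ^ 2 * (2 * ((k : ℚ) + 1) + 1) :=
            mul_le_mul_of_nonneg_right e1 (by positivity)
        _ ≤ _ := e2
    calc w α k * (((k : ℚ) + α) * ((k : ℚ) + (1 - α)) * (((k : ℚ) + 1)⁻¹) ^ 2) *
          (2 * ((k : ℚ) + 1) + 1)
        = w α k * ((((k : ℚ) + α) * ((k : ℚ) + (1 - α)) * (((k : ℚ) + 1)⁻¹) ^ 2) *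
          (2 * ((k : ℚ) + 1) + 1)) := by ring
      _ ≤ w α k * (2 * (k : ℚ) + 1) := mul_le_mul_of_nonneg_left key hw.le
      _ ≤ 1 := ih

theorem w_ge (α : ℚ) (h0 : 0 < α) (h1 : α < 1) (k : ℕ) :
    α * (1 - α) ≤ w α (k + 1) * ((k : ℚ) + 1) := by
  induction k with
  | zero => simp [w_succ, w_zero]
  | succ k ih =>
    have hk : (0 : ℚ) ≤ k := Nat.cast_nonneg k
    have hw := w_pos α h0 h1 (k + 1)
    rw [w_succ]
    push_cast
    have hp : (0 : ℚ) < (k : ℚ) + 1 + 1 := by linarith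
    have key : (k : ℚ) + 1 ≤ (((k : ℚ) + 1 + α) * ((k : ℚ) + 1 + (1 - α)) *
        (((k : ℚ) + 1 + 1)⁻¹) ^ 2) * ((k : ℚ) + 1 + 1) := by
      rw [inv_pow, ← div_eq_mul_inv, div_mul_eq_mul_div, le_div_iff₀ (by positivity)]
      have e1 : ((k : ℚ) + 1) * ((k : ℚ) + 1 + 1) ≤
          ((k : ℚ) + 1 + α) * ((k : ℚ) + 1 + (1 - α)) := by
        nlinarith [mul_pos h0 (sub_pos.mpr h1)]
      calc ((k : ℚ) + 1) * ((k : ℚ) + 1 + 1) ^ 2
          = (((k : ℚ) + 1) * ((k : ℚ) + 1 + 1)) * ((k : ℚ) + 1 + 1) := by ring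
        _ ≤ _ := mul_le_mul_of_nonneg_right e1 hp.le
    calc α * (1 - α) ≤ w α (k + 1) * ((k : ℚ) + 1) := ih
      _ ≤ w α (k + 1) * ((((k : ℚ) + 1 + α) * ((k : ℚ) + 1 + (1 - α)) *
        (((k : ℚ) + 1 + 1)⁻¹) ^ 2) * ((k : ℚ) + 1 + 1)) := mul_le_mul_of_nonneg_left key hw.le
      _ = _ := by ring

theorem constantCoeff_Ak (D : Dat) (k : ℕ) :
    PowerSeries.constantCoeff (Ak D k) = D.lam ^ k * ∏ i, w (D.al i) k := by
  unfold Ak w
  rw [map_prod, prod_comm]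
  simp only [map_mul, map_prod, map_pow, PowerSeries.constantCoeff_inv, map_add,
    PowerSeries.constantCoeff_C, PowerSeries.constantCoeff_X, add_zero]
  rw [prod_mul_distrib]
  simp

theorem coeff_Hyp (D : Dat) (a : Fin D.r) (k : ℕ) :
    PowerSeries.coeff k (Hyp D a D.fz) =
      (k : ℚ) ^ (a : ℕ) * (D.lam ^ k * ∏ i, w (D.al i) k) := by
  have h : PowerSeries.coeff k (Hyp D a D.fz) =
      PowerSeries.coeff 0 ((PowerSeries.C (k : ℚ) + PowerSeries.X) ^ (a : ℕ) * Ak D k) := by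
    simp only [Hyp, PowerSeries.coeff_mk]
    rfl
  rw [h, PowerSeries.coeff_zero_eq_constantCoeff_apply, map_mul, constantCoeff_Ak]
  simp

theorem hg0 : Hg0Stmt := by
  intro D
  have h00 : ∀ k, PowerSeries.coeff k (Hyp D D.fz D.fz) = D.lam ^ k * ∏ i, w (D.al i) k := by
    intro k
    rw [coeff_Hyp]
    show (k : ℚ) ^ 0 * _ = _
    simp
  refine ⟨fun a k => by rw [coeff_Hyp, h00], fun k => ?_, ∏ i, (D.al i * (1 - D.al i)), ?_, ?_⟩
  · rw [h00, mul_assoc]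
    have h1 : (∏ i, w (D.al i) k) * (2 * (k : ℚ) + 1) ^ D.s ≤ 1 := by
      have : (2 * (k : ℚ) + 1) ^ D.s = ∏ _i : Fin D.s, (2 * (k : ℚ) + 1) := by simp
      rw [this, ← prod_mul_distrib]
      apply prod_le_one
      · intro i _
        have := w_pos (D.al i) (D.al_pos i) (D.al_lt i) k
        positivity
      · intro i _
        exact w_le _ (D.al_pos i) (D.al_lt i) k
    have := mul_le_mul_of_nonneg_left h1 (pow_pos D.lam_pos k).le
    linarith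
  · apply prod_pos
    intro i _
    exact mul_pos (D.al_pos i) (sub_pos.mpr (D.al_lt i))
  · intro k hk
    obtain ⟨k, rfl⟩ : ∃ m, k = m + 1 := ⟨k - 1, by omega⟩
    rw [h00]
    have h1 : ∏ i, (D.al i * (1 - D.al i)) ≤
        (∏ i, w (D.al i) (k + 1)) * ((k : ℚ) + 1) ^ D.s := by
      have : ((k : ℚ) + 1) ^ D.s = ∏ _i : Fin D.s, ((k : ℚ) + 1) := by simp
      rw [this, ← prod_mul_distrib]
      apply prod_le_prod
      · intro i _
        exact (mul_pos (D.al_pos i) (sub_pos.mpr (D.al_lt i))).le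
      · intro i _
        exact w_ge _ (D.al_pos i) (D.al_lt i) k
    have := mul_le_mul_of_nonneg_left h1 (pow_pos D.lam_pos (k + 1)).le
    push_cast
    linarith

end Pool.Agent.MT100.H90
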