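import Pool.Agent.Helper65_MT100.Val
import Pool.Agent.Helper19_MT100.Hgt
import Pool.Agent.Helper5_MT100.Gcl

/-! TRA, part one: the substitution `z / (1 - κ z)` and the series of G-type; the exponential of the
shift over a commutative ring containing the rational numbers. -/

set_option autoImplicit false

namespace Pool.Agent.MT100.H90

open Finset Pool.Agent.Helper65MT100 Pool.Agent.Helper5_MT100

/-! ### The coefficients of the powers of `z / (1 - κ z)` -/

/-- the coefficient of `z ^ k` in `(z / (1 - κ z)) ^ j` -/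
def aN (κ : ℕ) : ℕ → ℕ → ℕ
  | 0, 0 => 1
  | 0, _ + 1 => 0
  | _ + 1, 0 => 0
  | k + 1, j + 1 => κ * aN κ k (j + 1) + aN κ k j

theorem mob_eq (κ : ℕ) : mob κ = PowerSeries.X + PowerSeries.C (κ : ℚ) * (PowerSeries.X * mob κ) := by
  ext k
  rw [map_add, PowerSeries.coeff_C_mul]
  cases k with
  | zero =>
    rw [coeff_mob_zero, PowerSeries.coeff_zero_X_mul, PowerSeries.coeff_zero_X]
    ring
  | succ k =>
    rw [coeff_mob, PowerSeries.coeff_succ_X_mul, PowerSeries.coeff_X]
    cases k with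
    | zero =>
      rw [coeff_mob_zero]
      simp
    | succ k =>
      rw [coeff_mob, if_neg (by omega), pow_succ]
      ring

theorem coeff_mob_pow (κ k : ℕ) : ∀ j, PowerSeries.coeff k ((mob κ) ^ j) = (aN κ k j : ℚ) := by
  induction k with
  | zero =>
    intro j
    cases j with
    | zero => simp [aN]
    | succ j =>
      rw [coeff_mob_pow_zero κ (by omega)]
      simp [aN]
  | succ k ih =>
    intro j
    cases j with
    | zero =>
      rw [pow_zero, PowerSeries.coeff_one, if_neg (by omega)]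
      simp [aN]
    | succ j =>
      have h1 : (mob κ) ^ (j + 1) = PowerSeries.X * ((mob κ) ^ j +
          PowerSeries.C (κ : ℚ) * (mob κ) ^ (j + 1)) := by
        calc (mob κ) ^ (j + 1) = (mob κ) ^ j * mob κ := pow_succ _ _
          _ = (mob κ) ^ j *
              (PowerSeries.X + PowerSeries.C (κ : ℚ) * (PowerSeries.X * mob κ)) := by
            rw [← mob_eq]
          _ = _ := by rw [pow_succ]; ring
      rw [h1, PowerSeries.coeff_succ_X_mul, map_add, PowerSeries.coeff_C_mul, ih, ih]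
      simp only [aN]
      push_cast
      ring

theorem aN_le (κ k : ℕ) : ∀ j, aN κ k j ≤ (κ + 1) ^ k := by
  induction k with
  | zero =>
    intro j
    cases j <;> simp [aN]
  | succ k ih =>
    intro j
    cases j with
    | zero => simp [aN]
    | succ j =>
      simp only [aN]
      rw [pow_succ]
      have h1 := ih (j + 1)
      have h2 := ih j
      nlinarith

theorem gtype_subst {f : PowerSeries ℚ} (hf : GType f) (κ : ℕ) : GType (f.subst (mob κ)) := by
  obtain ⟨C, hC, h⟩ := hf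
  refine ⟨2 * C * (κ + 1), by positivity, fun k => ⟨?_, ?_⟩⟩
  · rw [coeff_subst_mob]
    have h1 : ∀ j ∈ range (k + 1), |PowerSeries.coeff j f * PowerSeries.coeff k ((mob κ) ^ j)| ≤
        (C : ℚ) ^ (k + 1) * ((κ : ℚ) + 1) ^ k := by
      intro j hj
      rw [abs_mul, coeff_mob_pow, Nat.abs_cast]
      have h2 : |PowerSeries.coeff j f| ≤ (C : ℚ) ^ (k + 1) := by
        refine (h j).1.trans (pow_le_pow_right₀ (by exact_mod_cast hC) ?_)
        have := mem_range.1 hj
        omega
      have h3 : ((aN κ k j : ℕ) : ℚ) ≤ ((κ : ℚ) + 1) ^ k := by exact_mod_cast aN_le κ k j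
      exact mul_le_mul h2 h3 (by positivity) (by positivity)
    refine (abs_sum_le_sum_abs _ _).trans ((sum_le_card_nsmul _ _ _ h1).trans ?_)
    rw [card_range, nsmul_eq_mul]
    have h4 : ((k + 1 : ℕ) : ℚ) ≤ 2 ^ (k + 1) := by
      have : k + 1 < 2 ^ (k + 1) := Nat.lt_two_pow_self
      exact_mod_cast this.le
    have h5 : ((κ : ℚ) + 1) ^ k ≤ ((κ : ℚ) + 1) ^ (k + 1) :=
      pow_le_pow_right₀ (by linarith [(Nat.cast_nonneg κ : (0 : ℚ) ≤ κ)]) (Nat.le_succ k)
    push_cast at h4 ⊢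
    calc ((k : ℚ) + 1) * ((C : ℚ) ^ (k + 1) * ((κ : ℚ) + 1) ^ k)
        ≤ 2 ^ (k + 1) * ((C : ℚ) ^ (k + 1) * ((κ : ℚ) + 1) ^ (k + 1)) :=
          mul_le_mul h4 (mul_le_mul_of_nonneg_left h5 (by positivity)) (by positivity)
            (by positivity)
      _ = _ := by rw [mul_pow, mul_pow]; ring
  · obtain ⟨D, hD, hD1, hD2⟩ := (h k).2
    refine ⟨D, hD, hD1.trans (Nat.pow_le_pow_left ?_ _), fun i hi => ?_⟩
    · nlinarith [Nat.zero_le κ]
    · rw [coeff_subst_mob, mul_sum]
      have h1 : ∀ j ∈ range (i + 1), ∃ z : ℤ, (D : ℚ) *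
          (PowerSeries.coeff j f * PowerSeries.coeff i ((mob κ) ^ j)) = z := by
        intro j hj
        have h2 := mem_range.1 hj
        obtain ⟨z, hz⟩ := hD2 j (by omega)
        refine ⟨z * (aN κ i j : ℕ), ?_⟩
        rw [← mul_assoc, hz, coeff_mob_pow]
        push_cast
        ring
      choose! z hz using h1
      refine ⟨∑ j ∈ range (i + 1), z j, ?_⟩
      rw [sum_congr rfl hz]
      push_cast
      rfl

/-! ### The logarithm -/

theorem dvd_lcmUpto {n k : ℕ} (h0 : 0 < k) (h : k ≤ n) : k ∣ Nat.lcmUpto n := by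
  unfold Nat.lcmUpto
  exact Finset.dvd_lcm (f := id) (Finset.mem_Icc.2 ⟨h0, h⟩)

theorem gtype_lgs (κ : ℕ) : GType (lgs κ) := by
  obtain ⟨L, hL, hL'⟩ := MT100.H19.lcmUpto_le
  refine ⟨(κ + 1) * L, by positivity, fun k => ⟨?_, ?_⟩⟩
  · rw [coeff_lgs, abs_of_nonneg (by positivity)]
    have h1 : (κ : ℚ) ^ k / (k : ℚ) ≤ ((κ : ℚ) + 1) ^ (k + 1) := by
      rcases Nat.eq_zero_or_pos k with rfl | hk
      · simp
        positivity
      · have hk1 : (1 : ℚ) ≤ k := by exact_mod_cast hk
        have hκ : (0 : ℚ) ≤ κ := Nat.cast_nonneg κ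
        calc (κ : ℚ) ^ k / (k : ℚ) ≤ (κ : ℚ) ^ k := div_le_self (by positivity) hk1
          _ ≤ ((κ : ℚ) + 1) ^ k := pow_le_pow_left₀ hκ (by linarith) _
          _ ≤ _ := pow_le_pow_right₀ (by linarith) (Nat.le_succ k)
    have h2 : (1 : ℚ) ≤ (L : ℚ) ^ (k + 1) := one_le_pow₀ (by exact_mod_cast hL)
    push_cast
    rw [mul_pow]
    calc _ ≤ ((κ : ℚ) + 1) ^ (k + 1) := h1
      _ = ((κ : ℚ) + 1) ^ (k + 1) * 1 := (mul_one _).symm
      _ ≤ _ := mul_le_mul_of_nonneg_left h2 (by positivity)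
  · refine ⟨Nat.lcmUpto k, Nat.lcmUpto_pos k, ?_, fun i hi => ?_⟩
    · refine (hL' k).trans ?_
      calc L ^ k ≤ L ^ (k + 1) := Nat.pow_le_pow_right hL (Nat.le_succ k)
        _ ≤ _ := Nat.pow_le_pow_left (Nat.le_mul_of_pos_left L (Nat.succ_pos κ)) _
    · rw [coeff_lgs]
      rcases Nat.eq_zero_or_pos i with rfl | hi0
      · exact ⟨0, by simp⟩
      · obtain ⟨m, hm⟩ := dvd_lcmUpto hi0 hi
        refine ⟨(m * κ ^ i : ℕ), ?_⟩
        rw [hm]
        have : (i : ℚ) ≠ 0 := by exact_mod_cast hi0.ne'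
        push_cast
        field_simp

/-! ### The exponential of the shift -/

theorem gtype_pow {f : PowerSeries ℚ} (hf : GType f) (n : ℕ) : GType (f ^ n) := by
  induction n with
  | zero =>
    rw [pow_zero, ← map_one (PowerSeries.C (R := ℚ))]
    exact gconst 1
  | succ n ih =>
    rw [pow_succ]
    exact gmul ih hf

theorem gtype_zero : GType 0 := by
  rw [← map_zero (PowerSeries.C (R := ℚ))]
  exact gconst 0

theorem gtype_smul (c : ℚ) {f : PowerSeries ℚ} (hf : GType f) : GType (c • f) := by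
  rw [PowerSeries.smul_eq_C_mul]
  exact gmul (gconst c) hf

theorem gtype_sum {ι : Type*} (s : Finset ι) (f : ι → PowerSeries ℚ) (h : ∀ i ∈ s, GType (f i)) :
    GType (∑ i ∈ s, f i) := by
  classical
  induction s using Finset.induction_on with
  | empty => simpa using gtype_zero
  | insert a t ha ih =>
    rw [sum_insert ha]
    exact gadd (h a (mem_insert_self a t)) (ih fun i hi => h i (mem_insert_of_mem hi))

theorem gtype_mul {l m n : Type*} [Fintype m] (A : Matrix l m (PowerSeries ℚ))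
    (B : Matrix m n (PowerSeries ℚ)) (hA : ∀ i j, GType (A i j)) (hB : ∀ i j, GType (B i j)) :
    ∀ i j, GType ((A * B) i j) := by
  intro i j
  rw [Matrix.mul_apply]
  exact gtype_sum _ _ fun k _ => gmul (hA i k) (hB k j)

theorem gtype_en (r : ℕ) {f : PowerSeries ℚ} (hf : GType f) : ∀ i j, GType (en r f i j) := by
  intro i j
  unfold en
  split_ifs
  · exact gtype_smul _ (gtype_pow hf _)
  · exact gtype_zero

section general

variable {R : Type*} [CommRing R] [Algebra ℚ R]

theorem en_add' (r : ℕ) (x y : R) : en r (x + y) = en r x * en r y := by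
  ext l i
  rw [Matrix.mul_apply]
  by_cases h : l ≤ i
  · obtain ⟨m, hm⟩ : ∃ m, (i : ℕ) = (l : ℕ) + m := ⟨(i : ℕ) - l, by
      have : (l : ℕ) ≤ i := h
      omega⟩
    have hL : en r (x + y) l i = ((m.factorial : ℚ))⁻¹ • (x + y) ^ m := by
      unfold en
      rw [if_pos h, hm, Nat.add_sub_cancel_left]
    rw [hL, add_pow]
    have hR : ∑ j, en r x l j * en r y j i = ∑ j ∈ Finset.univ.filter (fun j : Fin r =>
        l ≤ j ∧ j ≤ i), (((((j : ℕ) - (l : ℕ)).factorial : ℚ)⁻¹) • x ^ ((j : ℕ) - (l : ℕ))) *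
          (((((i : ℕ) - (j : ℕ)).factorial : ℚ)⁻¹) • y ^ ((i : ℕ) - (j : ℕ))) := by
      rw [Finset.sum_filter]
      refine Finset.sum_congr rfl fun j _ => ?_
      unfold en
      by_cases h1 : l ≤ j
      · by_cases h2 : j ≤ i
        · rw [if_pos h1, if_pos h2, if_pos ⟨h1, h2⟩]
        · rw [if_neg h2, if_neg (fun hh : l ≤ j ∧ j ≤ i => h2 hh.2), mul_zero]
      · rw [if_neg h1, if_neg (fun hh : l ≤ j ∧ j ≤ i => h1 hh.1), zero_mul]
    rw [hR, Finset.smul_sum]
    symm
    refine Finset.sum_bij' (i := fun (j : Fin r) _ => (j : ℕ) - (l : ℕ))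
      (j := fun (t : ℕ) (ht : t ∈ Finset.range (m + 1)) => (⟨(l : ℕ) + t, by
        have h1 := Finset.mem_range.mp ht
        have h2 := i.2
        omega⟩ : Fin r)) ?_ ?_ ?_ ?_ ?_
    · intro j hj
      rw [Finset.mem_filter] at hj
      have h1 : (l : ℕ) ≤ j := hj.2.1
      have h2 : (j : ℕ) ≤ i := hj.2.2
      rw [Finset.mem_range]
      omega
    · intro t ht
      rw [Finset.mem_range] at ht
      rw [Finset.mem_filter]
      refine ⟨Finset.mem_univ _, ?_, ?_⟩
      · show (l : ℕ) ≤ (l : ℕ) + t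
        omega
      · show (l : ℕ) + t ≤ (i : ℕ)
        omega
    · intro j hj
      rw [Finset.mem_filter] at hj
      have h1 : (l : ℕ) ≤ j := hj.2.1
      apply Fin.ext
      show (l : ℕ) + ((j : ℕ) - l) = j
      omega
    · intro t ht
      show (l : ℕ) + t - l = t
      omega
    · intro j hj
      rw [Finset.mem_filter] at hj
      have h1 : (l : ℕ) ≤ j := hj.2.1
      have h2 : (j : ℕ) ≤ i := hj.2.2
      obtain ⟨t, ht⟩ : ∃ t, (j : ℕ) = (l : ℕ) + t := ⟨(j : ℕ) - l, by omega⟩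
      have h3 : (i : ℕ) - j = m - t := by omega
      have h4 : t ≤ m := by omega
      rw [h3, ht, Nat.add_sub_cancel_left]
      have h5 : ((m.choose t : ℕ) : ℚ) = (m.factorial : ℚ) /
          ((t.factorial : ℚ) * ((m - t).factorial : ℚ)) := Nat.cast_choose ℚ h4
      have h6 : (m.factorial : ℚ) ≠ 0 := by exact_mod_cast m.factorial_ne_zero
      have h7 : (t.factorial : ℚ) ≠ 0 := by exact_mod_cast t.factorial_ne_zero
      have h8 : ((m - t).factorial : ℚ) ≠ 0 := by exact_mod_cast (m - t).factorial_ne_zero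
      have h9 : x ^ t * y ^ (m - t) * ((m.choose t : ℕ) : R) =
          ((m.choose t : ℕ) : ℚ) • (x ^ t * y ^ (m - t)) := by
        rw [Algebra.smul_def, map_natCast, mul_comm]
      rw [h9, smul_mul_smul_comm, smul_smul, h5]
      congr 1
      field_simp
  · have hL : en r (x + y) l i = 0 := by
      unfold en
      rw [if_neg h]
    rw [hL]
    symm
    refine Finset.sum_eq_zero fun j _ => ?_
    unfold en
    by_cases h1 : l ≤ j
    · rw [if_neg (fun h2 : j ≤ i => h (h1.trans h2)), mul_zero]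
    · rw [if_neg h1, zero_mul]

theorem en_zero' (r : ℕ) : en r (0 : R) = 1 := by
  ext l i
  unfold en
  rw [Matrix.one_apply]
  rcases lt_trichotomy l i with h | h | h
  · have h' : (l : ℕ) < i := h
    rw [if_pos h.le, if_neg h.ne, zero_pow (by omega), smul_zero]
  · subst h
    simp
  · rw [if_neg (not_le.2 h), if_neg h.ne']

theorem en_mul_neg (r : ℕ) (x : R) : en r x * en r (-x) = 1 := by
  rw [← en_add', add_neg_cancel, en_zero']

/-- the shift over `R` -/
abbrev NR (r : ℕ) (R : Type*) [CommRing R] : Matrix (Fin r) (Fin r) R :=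
  (Nsh r).map (fun x => (x : R))

theorem NR_apply (r : ℕ) (l i : Fin r) : NR r R l i = if (l : ℕ) + 1 = i then 1 else 0 := by
  rw [NR, Matrix.map_apply, Nsh]
  split_ifs <;> simp

theorem NR_mul (r : ℕ) (A : Matrix (Fin r) (Fin r) R) (l i : Fin r) :
    (NR r R * A) l i = if h : (l : ℕ) + 1 < r then A ⟨l + 1, h⟩ i else 0 := by
  rw [Matrix.mul_apply]
  split_ifs with h
  · rw [Finset.sum_eq_single (⟨l + 1, h⟩ : Fin r)]
    · rw [NR_apply, if_pos rfl, one_mul]
    · intro b _ hb
      rw [NR_apply, if_neg (fun hh => hb (Fin.ext hh.symm)), zero_mul]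
    · intro hh
      exact absurd (Finset.mem_univ _) hh
  · refine Finset.sum_eq_zero fun b _ => ?_
    rw [NR_apply, if_neg (fun hh => h (by rw [hh]; exact b.2)), zero_mul]

theorem mul_NR (r : ℕ) (A : Matrix (Fin r) (Fin r) R) (l i : Fin r) :
    (A * NR r R) l i = if h : 0 < (i : ℕ) then A l ⟨i - 1, by have := i.2; omega⟩ else 0 := by
  rw [Matrix.mul_apply]
  split_ifs with h
  · rw [Finset.sum_eq_single (⟨i - 1, by have := i.2; omega⟩ : Fin r)]
    · rw [NR_apply, if_pos (by show (i : ℕ) - 1 + 1 = i; omega), mul_one]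
    · intro b _ hb
      rw [NR_apply, if_neg (fun hh => hb (Fin.ext (by show (b : ℕ) = i - 1; omega))), mul_zero]
    · intro hh
      exact absurd (Finset.mem_univ _) hh
  · refine Finset.sum_eq_zero fun b _ => ?_
    rw [NR_apply, if_neg (by omega), mul_zero]

theorem NR_comm (r : ℕ) (x : R) : NR r R * en r x = en r x * NR r R := by
  ext l i
  rw [NR_mul, mul_NR]
  unfold en
  by_cases h1 : (l : ℕ) + 1 < r
  · by_cases h2 : 0 < (i : ℕ)
    · rw [dif_pos h1, dif_pos h2]
      by_cases h3 : (l : ℕ) + 1 ≤ i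
      · rw [if_pos (show (⟨l + 1, h1⟩ : Fin r) ≤ i from h3),
          if_pos (show l ≤ (⟨i - 1, by have := i.2; omega⟩ : Fin r) from
            (by show (l : ℕ) ≤ i - 1; omega))]
        have h4 : (i : ℕ) - ((⟨l + 1, h1⟩ : Fin r) : ℕ) =
            (((⟨i - 1, by have := i.2; omega⟩ : Fin r) : ℕ)) - l := by
          show (i : ℕ) - (l + 1) = (i - 1) - l
          omega
        rw [h4]
      · rw [if_neg (show ¬ (⟨l + 1, h1⟩ : Fin r) ≤ i from h3),
          if_neg (show ¬ l ≤ (⟨i - 1, by have := i.2; omega⟩ : Fin r) from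
            (by show ¬ (l : ℕ) ≤ i - 1; omega))]
    · rw [dif_pos h1, dif_neg h2, if_neg (show ¬ (⟨l + 1, h1⟩ : Fin r) ≤ i from
        (by show ¬ (l : ℕ) + 1 ≤ i; omega))]
  · by_cases h2 : 0 < (i : ℕ)
    · rw [dif_neg h1, dif_pos h2, if_neg (show ¬ l ≤ (⟨i - 1, by have := i.2; omega⟩ : Fin r) from
        (by show ¬ (l : ℕ) ≤ i - 1; have := i.2; omega))]
    · rw [dif_neg h1, dif_neg h2]

end general

theorem nsh_nil (r : ℕ) : IsNilpotent (Nsh r) := by
  have key : ∀ k : ℕ, ∀ l i : Fin r, ((Nsh r) ^ k) l i ≠ 0 → (l : ℕ) + k = i := by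
    intro k
    induction k with
    | zero =>
      intro l i h
      rw [pow_zero, Matrix.one_apply] at h
      by_contra hcon
      apply h
      rw [if_neg (fun hh => hcon (by rw [hh]; rfl))]
    | succ k ih =>
      intro l i h
      rw [pow_succ, Matrix.mul_apply] at h
      obtain ⟨j, -, hj⟩ := Finset.exists_ne_zero_of_sum_ne_zero h
      have h1 := ih l j (left_ne_zero_of_mul hj)
      have h2 : Nsh r j i ≠ 0 := right_ne_zero_of_mul hj
      have h3 : (j : ℕ) + 1 = i := by
        by_contra hcon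
        exact h2 (if_neg hcon)
      omega
  refine ⟨r, ?_⟩
  ext l i
  by_contra h
  have h1 := key r l i h
  have h2 := i.2
  omega

theorem dv_en (r : ℕ) (x : PowerSeries ℚ) :
    (en r x).map dv = dv x • (NR r (PowerSeries ℚ) * en r x) := by
  ext1 l i
  rw [Matrix.map_apply, Matrix.smul_apply, NR_mul, smul_eq_mul]
  unfold en
  by_cases h : l ≤ i
  · have h' : (l : ℕ) ≤ i := h
    rw [if_pos h]
    rcases Nat.eq_zero_or_pos ((i : ℕ) - l) with h0 | h0
    · rw [h0, pow_zero]
      have h1 : dv ((((Nat.factorial 0 : ℕ) : ℚ)⁻¹) • (1 : PowerSeries ℚ)) = 0 := by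
        rw [dv, Derivation.map_smul, Derivation.map_one_eq_zero, smul_zero]
      rw [h1]
      by_cases h2 : (l : ℕ) + 1 < r
      · rw [dif_pos h2, if_neg (show ¬ (⟨l + 1, h2⟩ : Fin r) ≤ i from
          (by show ¬ (l : ℕ) + 1 ≤ i; omega)), mul_zero]
      · rw [dif_neg h2, mul_zero]
    · have hi := i.2
      have h2 : (l : ℕ) + 1 < r := by omega
      rw [dif_pos h2, if_pos (show (⟨l + 1, h2⟩ : Fin r) ≤ i from
        (by show (l : ℕ) + 1 ≤ i; omega))]
      obtain ⟨m, hm⟩ : ∃ m, (i : ℕ) - l = m + 1 := ⟨(i : ℕ) - l - 1, by omega⟩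
      have h3 : (i : ℕ) - ((⟨l + 1, h2⟩ : Fin r) : ℕ) = m := by
        show (i : ℕ) - (l + 1) = m
        omega
      rw [hm, h3, dv, Derivation.map_smul, Derivation.leibniz_pow, Nat.add_sub_cancel, Nat.factorial_succ]
      rw [smul_eq_mul, ← Nat.cast_smul_eq_nsmul ℚ, smul_smul, mul_smul_comm, mul_comm (x ^ m)]
      congr 1
      have h4 : (m.factorial : ℚ) ≠ 0 := by exact_mod_cast m.factorial_ne_zero
      have h5 : ((m : ℚ) + 1) ≠ 0 := by positivity
      push_cast
      field_simp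
  · rw [if_neg h, dv, map_zero]
    by_cases h2 : (l : ℕ) + 1 < r
    · rw [dif_pos h2, if_neg (show ¬ (⟨l + 1, h2⟩ : Fin r) ≤ i from (by
        show ¬ (l : ℕ) + 1 ≤ i
        have : ¬ (l : ℕ) ≤ i := h
        omega)), mul_zero]
    · rw [dif_neg h2, mul_zero]

end Pool.Agent.MT100.H90
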