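import Pool.Agent.Helper90_MT100.TraA

/-! TRA: translation of a system with the matrix `A (z) / (1 - λ z)`, `A` of degree one, general
version (for both the even and the odd order). -/

set_option autoImplicit false

namespace Pool.Agent.MT100.H90

open Finset Matrix Pool.Agent.Helper65MT100 Pool.Agent.Helper5_MT100

/-! ### The substitution -/

/-- the substitution of `z / (1 - κ z)` -/
noncomputable def phi (κ : ℕ) : PowerSeries ℚ →ₐ[ℚ] PowerSeries ℚ :=
  PowerSeries.substAlgHom (hasSubst_mob κ)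

theorem phi_apply (κ : ℕ) (f : PowerSeries ℚ) : phi κ f = f.subst (mob κ) := by
  rw [phi, PowerSeries.coe_substAlgHom]

theorem phi_X (κ : ℕ) : phi κ PowerSeries.X = mob κ := by
  rw [phi, PowerSeries.substAlgHom_X]

theorem phi_C (κ : ℕ) (a : ℚ) : phi κ (PowerSeries.C a) = PowerSeries.C a := by
  have h : (PowerSeries.C a : PowerSeries ℚ) = algebraMap ℚ (PowerSeries ℚ) a := rfl
  rw [h, AlgHom.commutes]

theorem dv_phi (κ : ℕ) (f : PowerSeries ℚ) : dv (phi κ f) = phi κ (dv f) * dv (mob κ) := by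
  rw [phi_apply, phi_apply]
  exact PowerSeries.derivative_subst (hasSubst_mob κ)

theorem constantCoeff_phi (κ : ℕ) (f : PowerSeries ℚ) :
    PowerSeries.constantCoeff (phi κ f) = PowerSeries.constantCoeff f := by
  rw [phi_apply, ← PowerSeries.coeff_zero_eq_constantCoeff_apply, coeff_subst_mob]
  simp

/-- `1 - κ z` -/
noncomputable def uu (a : ℚ) : PowerSeries ℚ := 1 - PowerSeries.C a * PowerSeries.X

theorem mob_mul (κ : ℕ) : mob κ * uu κ = PowerSeries.X := by
  have h := mob_eq κ
  rw [uu]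
  linear_combination h

theorem dv_uu (a : ℚ) : dv (uu a) = -PowerSeries.C a := by
  rw [uu, dv, map_sub, Derivation.map_one_eq_zero, Derivation.leibniz,
    PowerSeries.derivative_C, PowerSeries.derivative_X]
  simp

theorem dv_mob_uu (κ : ℕ) : dv (mob κ) * uu κ * uu κ = 1 := by
  have h1 : dv (mob κ * uu κ) = 1 := by
    rw [mob_mul, dv, PowerSeries.derivative_X]
  rw [dv, Derivation.leibniz] at h1
  have h2 := dv_uu κ
  rw [dv] at h2
  rw [h2, smul_eq_mul, smul_eq_mul] at h1
  have h3 := mob_mul κ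
  have h4 : uu (κ : ℚ) = 1 - PowerSeries.C (κ : ℚ) * PowerSeries.X := rfl
  rw [dv]
  linear_combination uu (κ : ℚ) * h1 + PowerSeries.C (κ : ℚ) * h3 + h4

theorem X_dv_mob (κ : ℕ) : PowerSeries.X * dv (mob κ) * uu κ = mob κ := by
  have h1 := dv_mob_uu κ
  have h2 := mob_mul κ
  calc PowerSeries.X * dv (mob κ) * uu κ = (mob κ * uu κ) * dv (mob κ) * uu κ := by rw [h2]
    _ = mob κ * (dv (mob κ) * uu κ * uu κ) := by ring
    _ = mob κ := by rw [h1, mul_one]

theorem dv_lgs (κ : ℕ) : dv (lgs κ) * uu κ = PowerSeries.C (κ : ℚ) := by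
  have hc : ∀ k : ℕ, PowerSeries.coeff k (dv (lgs κ)) = (κ : ℚ) ^ (k + 1) := by
    intro k
    rw [dv, PowerSeries.coeff_derivative, coeff_lgs]
    have : ((k : ℚ) + 1) ≠ 0 := by positivity
    push_cast
    field_simp
  have h1 : dv (lgs κ) * uu κ =
      dv (lgs κ) - PowerSeries.C (κ : ℚ) * (PowerSeries.X * dv (lgs κ)) := by
    rw [uu]
    ring
  rw [h1]
  ext k
  rw [map_sub, PowerSeries.coeff_C_mul, hc, PowerSeries.coeff_C]
  cases k with
  | zero =>
    rw [PowerSeries.coeff_zero_X_mul]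
    simp
  | succ k =>
    rw [PowerSeries.coeff_succ_X_mul, hc, if_neg (by omega)]
    ring

theorem uu_add (κ : ℕ) (lam : ℚ) :
    uu (κ + lam) = uu κ * (1 - PowerSeries.C lam * mob κ) := by
  have h := mob_mul κ
  have h1 : uu (κ : ℚ) = 1 - PowerSeries.C (κ : ℚ) * PowerSeries.X := rfl
  have h2 : uu (κ + lam) = 1 - (PowerSeries.C (κ : ℚ) + PowerSeries.C lam) * PowerSeries.X := by
    rw [uu, map_add]
  rw [h2]
  linear_combination PowerSeries.C lam * h - h1

/-! ### Denominators -/

theorem exists_clear (p : Polynomial ℚ) : ∃ m : ℤ, m ≠ 0 ∧ ∃ z : Polynomial ℤ,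
    Polynomial.C (m : ℚ) * p = zq z := by
  obtain ⟨b, hb, h⟩ := IsLocalization.integerNormalization_spec (nonZeroDivisors ℤ) p
  refine ⟨b, nonZeroDivisors.ne_zero hb, IsLocalization.integerNormalization (nonZeroDivisors ℤ) p,
    ?_⟩
  have h1 : (IsLocalization.integerNormalization (nonZeroDivisors ℤ) p).map
      (algebraMap ℤ ℚ) = zq (IsLocalization.integerNormalization (nonZeroDivisors ℤ) p) := rfl
  rw [← h1, h]
  ext i
  rw [Polynomial.coeff_C_mul, Polynomial.coeff_smul, zsmul_eq_mul]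

theorem exists_clear_all {ι : Type*} [Fintype ι] (p : ι → Polynomial ℚ) :
    ∃ m : ℤ, m ≠ 0 ∧ ∀ i, ∃ z : Polynomial ℤ, Polynomial.C (m : ℚ) * p i = zq z := by
  classical
  choose m hm z hz using fun i => exists_clear (p i)
  refine ⟨∏ i, m i, Finset.prod_ne_zero_iff.2 fun i _ => hm i, fun i => ?_⟩
  refine ⟨Polynomial.C (∏ j ∈ Finset.univ.erase i, m j) * z i, ?_⟩
  have h1 : ∏ i, m i = (∏ j ∈ Finset.univ.erase i, m j) * m i :=
    (Finset.prod_erase_mul _ _ (Finset.mem_univ i)).symm
  have h2 : zq (Polynomial.C (∏ j ∈ Finset.univ.erase i, m j) * z i) =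
      Polynomial.C ((∏ j ∈ Finset.univ.erase i, m j : ℤ) : ℚ) * zq (z i) := by
    rw [zq, Polynomial.map_mul, Polynomial.map_C, zq]
    rfl
  rw [h2, ← hz i, h1]
  push_cast
  rw [Polynomial.C_mul, mul_assoc]

/-! ### Matrices -/

theorem map_dv_mul {l m n : Type*} [Fintype m] (A : Matrix l m (PowerSeries ℚ))
    (B : Matrix m n (PowerSeries ℚ)) :
    (A * B).map dv = A.map dv * B + A * B.map dv := by
  ext1 i j
  rw [Matrix.map_apply, Matrix.mul_apply, Matrix.add_apply, Matrix.mul_apply, Matrix.mul_apply,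
    dv, map_sum, ← Finset.sum_add_distrib]
  refine Finset.sum_congr rfl fun k _ => ?_
  rw [Derivation.leibniz, smul_eq_mul, smul_eq_mul, Matrix.map_apply, Matrix.map_apply]
  ring

theorem coe_lin (a b : ℚ) : ((Polynomial.C a + Polynomial.C b * Polynomial.X : Polynomial ℚ) :
    PowerSeries ℚ) = PowerSeries.C a + PowerSeries.C b * PowerSeries.X := by
  rw [Polynomial.coe_add, Polynomial.coe_mul, Polynomial.coe_C, Polynomial.coe_C,
    Polynomial.coe_X]

theorem coe_one_sub (b : ℚ) : ((1 - Polynomial.C b * Polynomial.X : Polynomial ℚ) :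
    PowerSeries ℚ) = uu b := by
  rw [Polynomial.coe_sub, Polynomial.coe_mul, Polynomial.coe_C, Polynomial.coe_X,
    Polynomial.coe_one, uu]

/-- translation -/
theorem isG_translate {r : ℕ} (H K : Matrix (Fin r) (Fin r) (PowerSeries ℚ)) (lam : ℚ)
    (a0 a1 : Fin r → Fin r → ℚ) (A : Matrix (Fin r) (Fin r) (Polynomial ℚ))
    (hA : ∀ i j, A i j = Polynomial.C (a0 i j) + Polynomial.C (a1 i j) * Polynomial.X)
    (inv : H * K = 1)
    (one : ∀ i j, PowerSeries.constantCoeff (H i j) = if i = j then 1 else 0)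
    (ode : (((1 - Polynomial.C lam * Polynomial.X : Polynomial ℚ) : PowerSeries ℚ) *
        PowerSeries.X) • H.map dv = A.map (fun p => (p : PowerSeries ℚ)) * H -
          ((1 - Polynomial.C lam * Polynomial.X : Polynomial ℚ) : PowerSeries ℚ) •
            (H * (Nsh r).map (fun x => (x : PowerSeries ℚ))))
    (gH : ∀ i j, GType (H i j)) (gK : ∀ i j, GType (K i j)) (κ : ℕ) :
    IsG (H.map (fun f => f.subst (mob κ)) * en r (lgs κ)) := by
  classical
  have hsub : ∀ B : Matrix (Fin r) (Fin r) (PowerSeries ℚ),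
      B.map (fun f => f.subst (mob κ)) = B.map (phi κ) := by
    intro B
    ext1 i j
    rw [Matrix.map_apply, Matrix.map_apply, phi_apply]
  rw [hsub]
  -- clearing the denominators
  obtain ⟨m, hm, hz⟩ := exists_clear_all (ι := Option (Fin r × Fin r)) (fun o => match o with
    | none => (1 - Polynomial.C ((κ : ℚ) + lam) * Polynomial.X) *
        (1 - Polynomial.C (κ : ℚ) * Polynomial.X)
    | some p => Polynomial.C (a0 p.1 p.2) * (1 - Polynomial.C (κ : ℚ) * Polynomial.X) +
        Polynomial.C (a1 p.1 p.2) * Polynomial.X)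
  obtain ⟨q, hq⟩ := hz none
  have hB := fun i j => hz (some (i, j))
  choose B hB using hB
  simp only at hq hB
  have hm' : (m : ℚ) ≠ 0 := by exact_mod_cast hm
  obtain ⟨c, hc⟩ : ∃ c : PowerSeries ℚ, c = PowerSeries.C (m : ℚ) := ⟨_, rfl⟩
  have hzq : zp q = c * uu (κ + lam) * uu κ := by
    rw [zp, ← hq, Polynomial.coe_mul, Polynomial.coe_mul, coe_one_sub, coe_one_sub,
      Polynomial.coe_C, ← hc]
    ring
  have hzB : ∀ i j, zp (B i j) = c * uu κ * phi κ (A i j : PowerSeries ℚ) := by
    intro i j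
    rw [zp, ← hB, Polynomial.coe_mul, Polynomial.coe_add, Polynomial.coe_mul, Polynomial.coe_mul,
      coe_one_sub, Polynomial.coe_C, Polynomial.coe_C, Polynomial.coe_C, Polynomial.coe_X, ← hc,
      hA, coe_lin, map_add, map_mul, phi_C, phi_C, phi_X]
    have h := mob_mul κ
    linear_combination (-c * PowerSeries.C (a1 i j)) * h
  refine ⟨en r (-(lgs κ)) * K.map (phi κ), Nsh r, q, Matrix.of B, ?_⟩
  refine { inv := ?_, one := ?_, nil := nsh_nil r, q0 := ?_, ode := ?_, gH := ?_, gK := ?_ }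
  · rw [Matrix.mul_assoc, ← Matrix.mul_assoc (en r (lgs κ)), en_mul_neg, Matrix.one_mul,
      ← Matrix.map_mul, inv, Matrix.map_one _ (map_zero _) (map_one _)]
  · intro i j
    have h1 : (H.map (phi κ) * en r (lgs κ)).map PowerSeries.constantCoeff = 1 := by
      rw [Matrix.map_mul]
      have h2 : (H.map (phi κ)).map PowerSeries.constantCoeff = 1 := by
        ext1 a b
        rw [Matrix.map_apply, Matrix.map_apply, constantCoeff_phi, one, Matrix.one_apply]
      have h3 : (en r (lgs κ)).map PowerSeries.constantCoeff = 1 := by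
        rw [← en_zero' (R := ℚ) r]
        ext1 a b
        rw [Matrix.map_apply]
        unfold en
        split_ifs with h
        · rw [PowerSeries.smul_eq_C_mul, map_mul, PowerSeries.constantCoeff_C, map_pow, smul_eq_mul]
          have h4 : PowerSeries.constantCoeff (lgs κ) = 0 := by
            rw [← PowerSeries.coeff_zero_eq_constantCoeff_apply, coeff_lgs]
            simp
          rw [h4]
        · rw [map_zero]
      rw [h2, h3, Matrix.one_mul]
    have h4 := congrFun (congrFun h1 i) j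
    rw [Matrix.map_apply, Matrix.one_apply] at h4
    exact h4
  · intro h
    have h1 : zp q = 0 := by
      rw [h, zp, zq, Polynomial.map_zero, Polynomial.coe_zero]
    have h2 : PowerSeries.constantCoeff (zp q) = (m : ℚ) := by
      rw [hzq, hc, uu, uu]
      simp
    rw [h1, map_zero] at h2
    exact hm' h2.symm
  · -- the differential equation
    obtain ⟨M, hM⟩ : ∃ M, M = H.map (phi κ) := ⟨_, rfl⟩
    obtain ⟨E, hE⟩ : ∃ E : Matrix (Fin r) (Fin r) (PowerSeries ℚ), E = en r (lgs κ) := ⟨_, rfl⟩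
    obtain ⟨D, hD⟩ : ∃ D, D = (H.map dv).map (phi κ) := ⟨_, rfl⟩
    obtain ⟨N, hN⟩ : ∃ N : Matrix (Fin r) (Fin r) (PowerSeries ℚ),
      N = NR r (PowerSeries ℚ) := ⟨_, rfl⟩
    obtain ⟨Ap, hAp⟩ : ∃ Ap : Matrix (Fin r) (Fin r) (PowerSeries ℚ),
      Ap = (A.map (fun p => (p : PowerSeries ℚ))).map (phi κ) := ⟨_, rfl⟩
    have hMd : M.map dv = dv (mob κ) • D := by
      rw [hM, hD]
      ext1 i j
      rw [Matrix.map_apply, Matrix.map_apply, Matrix.smul_apply, Matrix.map_apply,
        Matrix.map_apply, dv_phi, smul_eq_mul, mul_comm]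
    have hEd : E.map dv = dv (lgs κ) • (N * E) := by
      rw [hE, hN]
      exact dv_en r (lgs κ)
    have hNE : N * E = E * N := by
      rw [hE, hN]
      exact NR_comm r (lgs κ)
    have hNphi : N.map (phi κ) = N := by
      rw [hN]
      ext1 i j
      rw [Matrix.map_apply, NR_apply]
      split_ifs <;> simp
    have hode : ((1 - PowerSeries.C lam * mob κ) * mob κ) • D =
        Ap * M - (1 - PowerSeries.C lam * mob κ) • (M * N) := by
      have h1 := congrArg (fun Z : Matrix (Fin r) (Fin r) (PowerSeries ℚ) => Z.map (phi κ)) ode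
      rw [coe_one_sub] at h1
      have h2 : (H * (Nsh r).map (fun x => (x : PowerSeries ℚ))) = H * N := by rw [hN]
      rw [h2] at h1
      have h3 : phi κ (uu lam) = 1 - PowerSeries.C lam * mob κ := by
        rw [uu, map_sub, map_one, map_mul, phi_C, phi_X]
      have h4 : ((uu lam * PowerSeries.X) • H.map dv).map (phi κ) =
          ((1 - PowerSeries.C lam * mob κ) * mob κ) • D := by
        ext1 i j
        rw [Matrix.map_apply, Matrix.smul_apply, Matrix.smul_apply, smul_eq_mul, smul_eq_mul,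
          map_mul, map_mul, h3, phi_X, hD]
        rfl
      have h5 : (A.map (fun p => (p : PowerSeries ℚ)) * H - uu lam • (H * N)).map (phi κ) =
          Ap * M - (1 - PowerSeries.C lam * mob κ) • (M * N) := by
        have h6 : (A.map (fun p => (p : PowerSeries ℚ)) * H).map (phi κ) = Ap * M := by
          rw [Matrix.map_mul, ← hAp, ← hM]
        have h7 : (H * N).map (phi κ) = M * N := by
          rw [Matrix.map_mul, hNphi, ← hM]
        rw [← h6, ← h7, ← h3]
        ext1 i j
        rw [Matrix.map_apply, Matrix.sub_apply, Matrix.sub_apply, Matrix.smul_apply,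
          Matrix.smul_apply, smul_eq_mul, smul_eq_mul, map_sub, map_mul, Matrix.map_apply,
          Matrix.map_apply]
      rw [h4, h5] at h1
      exact h1
    have hBm : (Matrix.of B).map zp = (c * uu κ) • Ap := by
      rw [hAp]
      ext1 i j
      rw [Matrix.map_apply, Matrix.of_apply, hzB, Matrix.smul_apply, smul_eq_mul,
        Matrix.map_apply, Matrix.map_apply]
    have hN' : (Nsh r).map (fun x => (x : PowerSeries ℚ)) = N := by rw [hN]
    rw [← hM, ← hE, hN', map_dv_mul, hMd, hEd, hBm, hzq]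
    have hTN : M * E * N = M * (N * E) := by rw [Matrix.mul_assoc, ← hNE]
    rw [hTN]
    have hode' : ((1 - PowerSeries.C lam * mob κ) * mob κ) • (D * E) =
        Ap * (M * E) - (1 - PowerSeries.C lam * mob κ) • (M * (N * E)) := by
      have h1 := congrArg (fun Z : Matrix (Fin r) (Fin r) (PowerSeries ℚ) => Z * E) hode
      rw [Matrix.smul_mul, Matrix.sub_mul, Matrix.smul_mul, Matrix.mul_assoc, Matrix.mul_assoc]
        at h1
      exact h1
    ext1 i j
    have h1 := congrFun (congrFun hode' i) j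
    rw [Matrix.smul_apply, Matrix.sub_apply, Matrix.smul_apply, smul_eq_mul, smul_eq_mul] at h1
    rw [Matrix.smul_mul, Matrix.mul_smul, Matrix.smul_mul, Matrix.smul_apply, Matrix.add_apply,
      Matrix.smul_apply, Matrix.smul_apply, Matrix.sub_apply, Matrix.smul_apply,
      Matrix.smul_apply]
    simp only [smul_eq_mul]
    have F3 := X_dv_mob κ
    have F4 := dv_lgs κ
    have F5 := uu_add κ lam
    have F6 : uu (κ : ℚ) = 1 - PowerSeries.C (κ : ℚ) * PowerSeries.X := rfl
    obtain ⟨x1, hx1⟩ : ∃ x, x = (D * E) i j := ⟨_, rfl⟩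
    obtain ⟨x2, hx2⟩ : ∃ x, x = (Ap * (M * E)) i j := ⟨_, rfl⟩
    obtain ⟨x3, hx3⟩ : ∃ x, x = (M * (N * E)) i j := ⟨_, rfl⟩
    rw [← hx1, ← hx2, ← hx3] at h1 ⊢
    linear_combination (c * uu (κ + lam) * x1) * F3 +
      (c * uu (κ + lam) * PowerSeries.X * x3) * F4 + (c * uu κ) * h1 +
      (c * mob κ * x1 + c * x3) * F5 + (c * uu (κ + lam) * x3) * F6
  · exact gtype_mul _ _ (fun i j => by
      rw [Matrix.map_apply, phi_apply]
      exact gtype_subst (gH i j) κ) (gtype_en r (gtype_lgs κ))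
  · exact gtype_mul _ _ (gtype_en r (gneg (gtype_lgs κ))) (fun i j => by
      rw [Matrix.map_apply, phi_apply]
      exact gtype_subst (gK i j) κ)

/-! ### The inverse -/

theorem J0_sq (r : ℕ) (hr : 0 < r) : J0 r * J0 r = ((-1 : ℚ) ^ (r - 1)) • (1 : Matrix (Fin r) (Fin r) ℚ) := by
  ext1 a b
  rw [Matrix.mul_apply, Matrix.smul_apply, Matrix.one_apply]
  have ha := a.2
  rw [Finset.sum_eq_single (⟨r - 1 - a, by omega⟩ : Fin r)]
  · unfold J0
    rw [if_pos (by show (a : ℕ) + (r - 1 - a) + 1 = r; omega)]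
    by_cases h : a = b
    · subst h
      rw [if_pos (by show (r - 1 - (a : ℕ)) + a + 1 = r; omega), if_pos rfl, ← pow_add, smul_eq_mul,
        mul_one]
      congr 1
      show (a : ℕ) + (r - 1 - a) = r - 1
      omega
    · rw [if_neg (fun hh => h (Fin.ext (by
        have h1 : (r - 1 - (a : ℕ)) + b + 1 = r := hh
        omega))), if_neg h, mul_zero, smul_zero]
  · intro c _ hc
    unfold J0
    rw [if_neg (fun hh => hc (Fin.ext (by
      show (c : ℕ) = r - 1 - a
      omega))), zero_mul]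
  · intro h
    exact absurd (Finset.mem_univ _) h

/-- a fundamental matrix with a polynomial pairing has an inverse with entries of G-type -/
theorem exists_inv {r : ℕ} (hr : 0 < r) (H : Matrix (Fin r) (Fin r) (PowerSeries ℚ))
    (J : Matrix (Fin r) (Fin r) (Polynomial ℚ))
    (hJ : Hᵀ * J.map (fun p => (p : PowerSeries ℚ)) * H = (J0 r).map (fun x => PowerSeries.C x))
    (gH : ∀ i j, GType (H i j)) :
    ∃ K : Matrix (Fin r) (Fin r) (PowerSeries ℚ), H * K = 1 ∧ ∀ i j, GType (K i j) := by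
  obtain ⟨J', hJ'⟩ : ∃ J' : Matrix (Fin r) (Fin r) (PowerSeries ℚ),
    J' = (((-1 : ℚ) ^ (r - 1)) • J0 r).map (fun x => PowerSeries.C x) := ⟨_, rfl⟩
  have h1 : J' * (J0 r).map (fun x => PowerSeries.C x) = 1 := by
    have h2 : J' * (J0 r).map (fun x => PowerSeries.C x) =
        ((((-1 : ℚ) ^ (r - 1)) • J0 r) * J0 r).map (PowerSeries.C (R := ℚ)) := by
      rw [Matrix.map_mul, hJ']
    rw [h2, Matrix.smul_mul, J0_sq r hr, smul_smul, ← mul_pow]
    norm_num
  refine ⟨J' * (Hᵀ * J.map (fun p => (p : PowerSeries ℚ))), ?_, ?_⟩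
  · rw [mul_eq_one_comm, Matrix.mul_assoc, hJ, h1]
  · refine gtype_mul _ _ (fun i j => ?_) (gtype_mul _ _ (fun i j => ?_) (fun i j => ?_))
    · rw [hJ', Matrix.map_apply]
      exact gconst _
    · exact gH j i
    · rw [Matrix.map_apply]
      exact gpoly _

end Pool.Agent.MT100.H90
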