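import Pool.Agent.Helper90_MT100.TraG
import Pool.Agent.MT100.StmtsP

/-! TRP: the systems with a polynomial parameter, general version. -/

set_option autoImplicit false

namespace Pool.Agent.MT100.H90

open Finset Matrix Pool.Agent.Helper65MT100 Pool.Agent.Helper5_MT100

/-- clearing the denominators of a system with the matrix `A (z) / (1 - λ z)` -/
theorem gsys_of_lin {r : ℕ} (H K : Matrix (Fin r) (Fin r) (PowerSeries ℚ)) (lam : ℚ)
    (A : Matrix (Fin r) (Fin r) (Polynomial ℚ)) (inv : H * K = 1)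
    (one : ∀ i j, PowerSeries.constantCoeff (H i j) = if i = j then 1 else 0)
    (ode : (((1 - Polynomial.C lam * Polynomial.X : Polynomial ℚ) : PowerSeries ℚ) *
        PowerSeries.X) • H.map dv = A.map (fun p => (p : PowerSeries ℚ)) * H -
          ((1 - Polynomial.C lam * Polynomial.X : Polynomial ℚ) : PowerSeries ℚ) •
            (H * (Nsh r).map (fun x => (x : PowerSeries ℚ))))
    (gH : ∀ i j, GType (H i j)) (gK : ∀ i j, GType (K i j)) :
    ∃ (q : Polynomial ℤ) (B : Matrix (Fin r) (Fin r) (Polynomial ℤ)), GSys H K (Nsh r) q B := by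
  obtain ⟨m, hm, hz⟩ := exists_clear_all (ι := Option (Fin r × Fin r)) (fun o => match o with
    | none => 1 - Polynomial.C lam * Polynomial.X
    | some p => A p.1 p.2)
  obtain ⟨q, hq⟩ := hz none
  have hB := fun i j => hz (some (i, j))
  choose B hB using hB
  simp only at hq hB
  have hm' : (m : ℚ) ≠ 0 := by exact_mod_cast hm
  obtain ⟨c, hc⟩ : ∃ c : PowerSeries ℚ, c = PowerSeries.C (m : ℚ) := ⟨_, rfl⟩
  have hzq : zp q = c * uu lam := by
    rw [zp, ← hq, Polynomial.coe_mul, coe_one_sub, Polynomial.coe_C, ← hc]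
  have hBm : (Matrix.of B).map zp = c • A.map (fun p => (p : PowerSeries ℚ)) := by
    ext1 i j
    rw [Matrix.map_apply, Matrix.of_apply, Matrix.smul_apply, Matrix.map_apply, smul_eq_mul, zp,
      ← hB, Polynomial.coe_mul, Polynomial.coe_C, ← hc]
  refine ⟨q, Matrix.of B, ⟨inv, one, nsh_nil r, ?_, ?_, gH, gK⟩⟩
  · intro h
    have h1 : zp q = 0 := by
      rw [h, zp, zq, Polynomial.map_zero, Polynomial.coe_zero]
    have h2 : PowerSeries.constantCoeff (zp q) = (m : ℚ) := by
      rw [hzq, hc, uu]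
      simp
    rw [h1, map_zero] at h2
    exact hm' h2.symm
  · rw [hzq, hBm]
    rw [coe_one_sub] at ode
    have h1 := congrArg (fun Z : Matrix (Fin r) (Fin r) (PowerSeries ℚ) => c • Z) ode
    rw [smul_smul, smul_sub, smul_smul, ← mul_assoc, ← Matrix.smul_mul] at h1
    exact h1

/-- TRP, general version -/
theorem trp_gen (hT : TrgStmt) (hE : EnsStmt) {r : ℕ}
    (H K : Matrix (Fin r) (Fin r) (PowerSeries ℚ)) (lam : ℚ)
    (A : Matrix (Fin r) (Fin r) (Polynomial ℚ)) (inv : H * K = 1)
    (one : ∀ i j, PowerSeries.constantCoeff (H i j) = if i = j then 1 else 0)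
    (ode : (((1 - Polynomial.C lam * Polynomial.X : Polynomial ℚ) : PowerSeries ℚ) *
        PowerSeries.X) • H.map dv = A.map (fun p => (p : PowerSeries ℚ)) * H -
          ((1 - Polynomial.C lam * Polynomial.X : Polynomial ℚ) : PowerSeries ℚ) •
            (H * (Nsh r).map (fun x => (x : PowerSeries ℚ))))
    (gH : ∀ i j, GType (H i j)) (gK : ∀ i j, GType (K i j)) (φ : Polynomial ℚ)
    (hφ : 0 < φ.natDegree) (κ : ℕ) :
    IsG (H.map (fun f => f.subst (mobp φ κ)) * en r (lgp φ κ)) := by
  obtain ⟨q, B, h⟩ := gsys_of_lin H K lam A inv one ode gH gK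
  have h1 := hT (Fin r) H K (Nsh r) q B h φ hφ κ
  rw [TrG, hE r (PowerSeries ℚ) (lgp φ κ)] at h1
  exact h1

end Pool.Agent.MT100.H90
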